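import Pool.Agent.X177.MT.Tri

/-! # MP_16be1b_co: the symmetry `W_{n,i} = W_{n,3n+3-i}` of values of the monotone triangle polynomial -/

set_option autoImplicit false

namespace Pool.Agent.Results.MP_16be1b_co.Symmetry

/-- `a` is a monotone triangle with `n` rows and bottom row `k`. The rows are `r = 0, ..., n - 1`, the
row `r` has the entries `a r 0, ..., a r r`; all other values of `a` are zero by convention, so that
arrays correspond to such functions. -/
def IsMonotoneTriangle (n : ℕ) (k : Fin n → ℤ) (a : ℕ → ℕ → ℤ) : Prop :=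
  (∀ r j, r < n → j < r → a r j < a r (j + 1)) ∧
  (∀ r j, r + 1 < n → j ≤ r → a (r + 1) j ≤ a r j ∧ a r j ≤ a (r + 1) (j + 1)) ∧
  (∀ j : Fin n, a (n - 1) j = k j) ∧
  (∀ r j, (n ≤ r ∨ r < j) → a r j = 0)

/-- the number of monotone triangles with bottom row `k` -/
noncomputable def count (n : ℕ) (k : Fin n → ℤ) : ℕ :=
  Nat.card {a : ℕ → ℕ → ℤ // IsMonotoneTriangle n k a}

/-- `P` is the monotone triangle polynomial `α(n; k_1, ..., k_n)`: its value at every strictly
increasing integer tuple is the number of monotone triangles with this bottom row. -/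
def IsAlpha (n : ℕ) (P : MvPolynomial (Fin n) ℚ) : Prop :=
  ∀ k : Fin n → ℤ, StrictMono k → MvPolynomial.eval (fun j => (k j : ℚ)) P = count n k

/-- the tuple `(i, 2, 3, ..., n + 1, 1, 2, ..., n)` of length `2 n + 1` -/
def args (n : ℕ) (i : ℤ) (j : Fin (2 * n + 1)) : ℤ :=
  if (j : ℕ) = 0 then i else if (j : ℕ) ≤ n then (j : ℤ) + 1 else (j : ℤ) - n

open Pool.Agent.X177.MT in
lemma alpha_eq_W {n : ℕ} {P : MvPolynomial (Fin n) ℚ} (hP : IsAlpha n P) (k : Fin n → ℤ) :
    MvPolynomial.eval (fun j => (k j : ℚ)) P = W (GG n) k := by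
  refine IsPoly.ext_strictMono (f := fun k : Fin n → ℤ => MvPolynomial.eval (fun j => (k j : ℚ)) P)
    ⟨P, fun _ => rfl⟩ (isPoly_W n) (fun k hk => ?_) k
  show MvPolynomial.eval (fun j => (k j : ℚ)) P = W (GG n) k
  rw [hP k hk]
  exact (card_IsMT n k hk).2

open Pool.Agent.X177.MT in
/-- The monotone triangle polynomials exist and are unique, and for all `n ≥ 1` and
`1 ≤ i ≤ 3 n + 2` one has `W_{n,i} = W_{n,3n+3-i}`, where
`W_{n,i} = α(2n+1; i, 2, 3, ..., n+1, 1, 2, ..., n)`. -/
theorem result : (∀ n : ℕ, ∃! P : MvPolynomial (Fin n) ℚ, IsAlpha n P) ∧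
    ∀ n : ℕ, 1 ≤ n → ∀ α : MvPolynomial (Fin (2 * n + 1)) ℚ, IsAlpha (2 * n + 1) α →
      ∀ i : ℤ, 1 ≤ i → i ≤ 3 * n + 2 →
        MvPolynomial.eval (fun j => (args n i j : ℚ)) α =
          MvPolynomial.eval (fun j => (args n (3 * n + 3 - i) j : ℚ)) α := by
  refine ⟨fun n => ?_, fun n _ P hP i _ _ => ?_⟩
  · obtain ⟨P, hP⟩ := isPoly_W n
    have hPa : IsAlpha n P := fun k hk => by
      rw [← hP]
      exact ((card_IsMT n k hk).2).symm
    refine ⟨P, hPa, fun Q hQ => ?_⟩
    apply MvPolynomial.funext_set (fun _ => Set.range (Int.cast : ℤ → ℚ))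
      (fun _ => Set.infinite_range_of_injective Int.cast_injective)
    intro x hx
    have hx' : ∀ i, ∃ m : ℤ, (m : ℚ) = x i := fun i => hx i (Set.mem_univ i)
    choose k hk using hx'
    have e : x = fun j => (k j : ℚ) := funext fun j => (hk j).symm
    rw [e, alpha_eq_W hQ, alpha_eq_W hPa]
  · rw [alpha_eq_W hP, alpha_eq_W hP, ← reflection (2 * n + 1) (args n i),
      ← translation (2 * n + 1) (rf (args n i)) ((n : ℤ) + 2), rotation (2 * n) (args n _)]
    have h1 : ((-1 : ℚ)) ^ (2 * n) = 1 := by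
      rw [pow_mul]
      simp
    rw [h1, one_mul]
    congr 1
    funext j
    have hj := j.2
    by_cases hl : j = Fin.last (2 * n)
    · rw [if_pos hl, hl]
      simp only [rf, args, Fin.rev_last, Fin.val_zero, if_true]
      push_cast
      ring
    · rw [if_neg hl]
      have hjl : (j : ℕ) < 2 * n := by
        have : (j : ℕ) ≠ 2 * n := fun h => hl (Fin.ext h)
        omega
      have h2 : ((finRotate (2 * n + 1) j : Fin (2 * n + 1)) : ℕ) = j + 1 := by
        rw [coe_finRotate_of_ne_last hl]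
      have h3 : ((j.rev : Fin (2 * n + 1)) : ℕ) = 2 * n - j := by
        rw [Fin.val_rev]
        omega
      simp only [rf, args, h2, h3]
      rw [if_neg (show ¬ (2 * n - (j : ℕ) = 0) by omega), if_neg (show ¬ ((j : ℕ) + 1 = 0) by omega)]
      by_cases hjn : (j : ℕ) < n
      · rw [if_neg (by omega), if_pos (by omega)]
        push_cast [Nat.cast_sub hjl.le]
        ring
      · rw [if_pos (by omega), if_neg (by omega)]
        push_cast [Nat.cast_sub hjl.le]
        ring

end Pool.Agent.Results.MP_16be1b_co.Symmetry
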